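import Pool.Agent.Helper88.Ric.Stmts

/-! Uniqueness of node coordinates. -/

set_option autoImplicit false

open Complex

namespace RicP

theorem st_DU : ST_DU := by
  intro N hN k p x₀ x₁ h0
  obtain ⟨him, h1, h2⟩ := h0
  have hN0 : (N : ℂ) ≠ 0 := by
    exact_mod_cast Nat.one_le_iff_ne_zero.1 hN
  have hpi : (2 * Real.pi * I : ℂ) ≠ 0 := Complex.two_pi_I_ne_zero
  constructor
  · rintro ⟨_, g1, g2⟩
    have e1 : Complex.exp (2 * Real.pi * I * x₁.1 / N) = Complex.exp (2 * Real.pi * I * x₀.1 / N) := by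
      rw [g1, h1]
    have e2 : Complex.exp (2 * Real.pi * I * x₁.2) = Complex.exp (2 * Real.pi * I * x₀.2) := by
      rw [g2, h2]
    obtain ⟨j, hj⟩ := Complex.exp_eq_exp_iff_exists_int.1 e1
    obtain ⟨m, hm⟩ := Complex.exp_eq_exp_iff_exists_int.1 e2
    refine ⟨j, m, ?_, ?_⟩
    · have e3 : (2 * Real.pi * I : ℂ) * x₁.1 = (2 * Real.pi * I) * (x₀.1 + N * j) := by
        have e4 : (2 * Real.pi * I * x₁.1 / N : ℂ) * N =
            (2 * Real.pi * I * x₀.1 / N + j * (2 * Real.pi * I)) * N := by rw [hj]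
        rw [div_mul_cancel₀ _ hN0, add_mul, div_mul_cancel₀ _ hN0] at e4
        rw [e4]; ring
      exact mul_left_cancel₀ hpi e3
    · have e3 : (2 * Real.pi * I : ℂ) * x₁.2 = (2 * Real.pi * I) * (x₀.2 + m) := by
        rw [hm]; ring
      exact mul_left_cancel₀ hpi e3
  · rintro ⟨j, m, e1, e2⟩
    refine ⟨?_, ?_, ?_⟩
    · rw [e1, Complex.add_im]
      have : ((N : ℂ) * (j : ℂ)).im = 0 := by
        rw [Complex.mul_im]; simp
      rw [this, add_zero]; exact him
    · rw [← h1]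
      apply Complex.exp_eq_exp_iff_exists_int.2
      refine ⟨j, ?_⟩
      rw [e1]
      field_simp
    · rw [← h2]
      apply Complex.exp_eq_exp_iff_exists_int.2
      refine ⟨m, ?_⟩
      rw [e2]
      ring

end RicP
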